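import Pool.Agent.Helper60.HB.Skel

/-!
# Bound for the derivatives of the auxiliary function at the points where it vanishes
-/

set_option autoImplicit false

open NumberField

namespace Pool.Agent.Helper60.HB

/-- `X_μ = ∑ (b_e μ_r - b_r μ_e) l_r` -/
noncomputable def derbX {n : ℕ} (b : Fin n → ℤ) (e : Fin n) (l : Fin n → ℂ) (μ : Fin n → ℤ) : ℂ :=
  ∑ r, ((b e * μ r - b r * μ e : ℤ) : ℂ) * l r

theorem derb_split {n : ℕ} (b : Fin n → ℤ) (e : Fin n) (l : Fin n → ℂ) (μ : Fin n → ℤ) :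
    (b e : ℂ) * LS l μ = derbX b e l μ + (μ e : ℂ) * LS l b := by
  unfold LS derbX
  rw [Finset.mul_sum, Finset.mul_sum, ← Finset.sum_add_distrib]
  refine Finset.sum_congr rfl fun r _ => ?_
  push_cast
  ring

theorem derb_iter {n : ℕ} (l : Fin n → ℂ) (s : Finset (Fin n → ℤ)) (J : ℕ) (k : ℕ) :
    ∀ a : (Fin n → ℤ) → ℂ, iteratedDeriv k (fun w : ℂ => ∑ μ ∈ s, a μ * EX l μ (w / 2 ^ J)) =
      fun w => ∑ μ ∈ s, (a μ * (LS l μ / 2 ^ J) ^ k) * EX l μ (w / 2 ^ J) := by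
  induction k with
  | zero => intro a; simp
  | succ k ih =>
    intro a
    rw [iteratedDeriv_succ']
    have h1 : deriv (fun w : ℂ => ∑ μ ∈ s, a μ * EX l μ (w / 2 ^ J)) =
        fun w => ∑ μ ∈ s, (a μ * (LS l μ / 2 ^ J)) * EX l μ (w / 2 ^ J) := by
      funext w
      refine HasDerivAt.deriv ?_
      refine HasDerivAt.fun_sum fun μ _ => ?_
      unfold EX
      have h2 : HasDerivAt (fun w : ℂ => w / 2 ^ J * LS l μ) (1 / 2 ^ J * LS l μ) w :=
        ((hasDerivAt_id w).div_const _).mul_const _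
      have h3 := (h2.cexp).const_mul (a μ)
      refine h3.congr_deriv ?_
      ring
    rw [h1, ih]
    funext w
    refine Finset.sum_congr rfl fun μ _ => ?_
    rw [pow_succ]
    ring

theorem derb_GC_succ {n : ℕ} (b : Fin n → ℤ) (e : Fin n) (m : Fin n → ℕ) (μ : Fin n → ℤ)
    (r : Fin n) :
    GC b e (m + Pi.single r 1) μ = (b e * μ r - b r * μ e) * GC b e m μ := by
  unfold GC
  have h1 : ∀ i, (b e * μ i - b i * μ e) ^ (m + Pi.single r 1 : Fin n → ℕ) i =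
      (b e * μ i - b i * μ e) ^ (Pi.single r 1 : Fin n → ℕ) i * (b e * μ i - b i * μ e) ^ m i := by
    intro i
    rw [Pi.add_apply, pow_add, mul_comm]
  simp only [h1, Finset.prod_mul_distrib]
  congr 1
  rw [Finset.prod_eq_single r]
  · simp
  · intro i _ hi
    rw [Pi.single_eq_of_ne hi, pow_zero]
  · intro h
    exact absurd (Finset.mem_univ r) h

theorem derb_zero {n : ℕ} (b : Fin n → ℤ) (e : Fin n) (l : Fin n → ℂ) (s : Finset (Fin n → ℤ))
    (p : (Fin n → ℤ) → ℤ) (N : ℕ) (z : ℂ)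
    (h : ∀ m' : Fin n → ℕ, (∑ i, m' i) < N → PH b e l s p m' z = 0) (k : ℕ) :
    ∀ m : Fin n → ℕ, (∑ i, m i) + k < N →
      ∑ μ ∈ s, ((p μ * GC b e m μ : ℤ) : ℂ) * derbX b e l μ ^ k * EX l μ z = 0 := by
  induction k with
  | zero =>
    intro m hm
    have h1 := h m (by simpa using hm)
    unfold PH at h1
    simpa using h1
  | succ k ih =>
    intro m hm
    have h1 : ∀ μ ∈ s, ((p μ * GC b e m μ : ℤ) : ℂ) * derbX b e l μ ^ (k + 1) * EX l μ z =
        ∑ r, l r * (((p μ * GC b e (m + Pi.single r 1) μ : ℤ) : ℂ) * derbX b e l μ ^ k *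
          EX l μ z) := by
      intro μ _
      rw [pow_succ]
      have h2 : ((p μ * GC b e m μ : ℤ) : ℂ) * (derbX b e l μ ^ k * derbX b e l μ) * EX l μ z =
          derbX b e l μ * (((p μ * GC b e m μ : ℤ) : ℂ) * derbX b e l μ ^ k * EX l μ z) := by
        ring
      have key : ∀ c : ℂ, derbX b e l μ * c =
          ∑ r, ((b e * μ r - b r * μ e : ℤ) : ℂ) * l r * c := by
        intro c
        unfold derbX
        rw [Finset.sum_mul]
      rw [h2, key]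
      refine Finset.sum_congr rfl fun r _ => ?_
      rw [derb_GC_succ]
      push_cast
      ring
    rw [Finset.sum_congr rfl h1, Finset.sum_comm]
    refine Finset.sum_eq_zero fun r _ => ?_
    rw [← Finset.mul_sum, ih (m + Pi.single r 1), mul_zero]
    have h3 : ∑ i, (m + Pi.single r 1 : Fin n → ℕ) i = (∑ i, m i) + 1 := by
      simp only [Pi.add_apply, Finset.sum_add_distrib]
      congr 1
      rw [Finset.sum_eq_single r]
      · simp
      · intro i _ hi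
        rw [Pi.single_eq_of_ne hi]
      · intro hr
        exact absurd (Finset.mem_univ r) hr
    rw [h3]
    omega

theorem derb_pow_sub (X y : ℂ) (M : ℝ) (hM : ‖X‖ + ‖y‖ ≤ M) (k : ℕ) :
    ‖(X + y) ^ k - X ^ k‖ ≤ k * ‖y‖ * M ^ (k - 1) := by
  have hM0 : 0 ≤ M := le_trans (by positivity) hM
  have hX : ‖X‖ ≤ M := le_trans (by linarith [norm_nonneg y]) hM
  have hXy : ‖X + y‖ ≤ M := (norm_add_le X y).trans hM
  have h1 := (Commute.all (X + y) X).geom_sum₂_mul k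
  rw [add_sub_cancel_left] at h1
  rw [← h1, norm_mul]
  have h2 : ‖∑ i ∈ Finset.range k, (X + y) ^ i * X ^ (k - 1 - i)‖ ≤ k * M ^ (k - 1) := by
    refine (norm_sum_le _ _).trans ?_
    have h3 : ∀ i ∈ Finset.range k, ‖(X + y) ^ i * X ^ (k - 1 - i)‖ ≤ M ^ (k - 1) := by
      intro i hi
      rw [Finset.mem_range] at hi
      rw [norm_mul, norm_pow, norm_pow]
      calc ‖X + y‖ ^ i * ‖X‖ ^ (k - 1 - i) ≤ M ^ i * M ^ (k - 1 - i) :=
            mul_le_mul (pow_le_pow_left₀ (norm_nonneg _) hXy _)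
              (pow_le_pow_left₀ (norm_nonneg _) hX _) (by positivity) (by positivity)
        _ = M ^ (k - 1) := by
            rw [← pow_add]
            congr 1
            omega
    have h4 := Finset.sum_le_card_nsmul _ _ _ h3
    simpa using h4
  calc ‖∑ i ∈ Finset.range k, (X + y) ^ i * X ^ (k - 1 - i)‖ * ‖y‖ ≤ k * M ^ (k - 1) * ‖y‖ :=
        mul_le_mul_of_nonneg_right h2 (norm_nonneg _)
    _ = k * ‖y‖ * M ^ (k - 1) := by ring

theorem derb_GC_le {n : ℕ} (b : Fin n → ℤ) (e : Fin n) (m : Fin n → ℕ) (μ : Fin n → ℤ) (Zc : ℝ)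
    (h : ∀ r, |((b e * μ r - b r * μ e : ℤ) : ℝ)| ≤ Zc) :
    |((GC b e m μ : ℤ) : ℝ)| ≤ Zc ^ (∑ i, m i) := by
  unfold GC
  rw [Int.cast_prod, Finset.abs_prod, ← Finset.prod_pow_eq_pow_sum]
  refine Finset.prod_le_prod (fun i _ => abs_nonneg _) fun i _ => ?_
  rw [Int.cast_pow, abs_pow]
  exact pow_le_pow_left₀ (abs_nonneg _) (h i) _

theorem st_DERB : ST_DERB := by
  intro n b e l L s p J τ P Zc a3 m x k hbe hs hZB hP hp hm hk hPH hE
  obtain ⟨hZ1, hZ⟩ := hZB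
  have hZ0 : (0 : ℝ) ≤ Zc := le_trans zero_le_one hZ1
  -- the derivative
  have h1 : iteratedDeriv k (fun w => PH b e l s p m (w / 2 ^ J)) x =
      ∑ μ ∈ s, (((p μ * GC b e m μ : ℤ) : ℂ) * (LS l μ / 2 ^ J) ^ k) * EX l μ (x / 2 ^ J) := by
    have h2 := derb_iter l s J k (fun μ => ((p μ * GC b e m μ : ℤ) : ℂ))
    exact congrFun h2 x
  have hbe' : (b e : ℂ) ≠ 0 := by exact_mod_cast hbe
  have h2J : (2 : ℂ) ^ J ≠ 0 := pow_ne_zero _ two_ne_zero
  have hzero := derb_zero b e l s p (2 * τ) (x / 2 ^ J) hPH k m (by omega)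
  have h3 : ∑ μ ∈ s, (((p μ * GC b e m μ : ℤ) : ℂ) * (LS l μ / 2 ^ J) ^ k) * EX l μ (x / 2 ^ J) =
      (((b e : ℂ) * 2 ^ J) ^ k)⁻¹ * ∑ μ ∈ s, ((p μ * GC b e m μ : ℤ) : ℂ) *
        ((derbX b e l μ + (μ e : ℂ) * LS l b) ^ k - derbX b e l μ ^ k) * EX l μ (x / 2 ^ J) := by
    have h4 : ∑ μ ∈ s, ((p μ * GC b e m μ : ℤ) : ℂ) *
        ((derbX b e l μ + (μ e : ℂ) * LS l b) ^ k - derbX b e l μ ^ k) * EX l μ (x / 2 ^ J) =
        ∑ μ ∈ s, ((p μ * GC b e m μ : ℤ) : ℂ) *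
        ((derbX b e l μ + (μ e : ℂ) * LS l b) ^ k) * EX l μ (x / 2 ^ J) := by
      rw [← sub_eq_zero, ← Finset.sum_sub_distrib, ← neg_eq_zero, ← Finset.sum_neg_distrib]
      rw [← hzero]
      refine Finset.sum_congr rfl fun μ _ => ?_
      ring
    rw [h4, Finset.mul_sum]
    refine Finset.sum_congr rfl fun μ _ => ?_
    rw [← derb_split, mul_pow, mul_pow, div_pow]
    field_simp
  rw [h1, h3, norm_mul]
  have h5 : ‖(((b e : ℂ) * 2 ^ J) ^ k)⁻¹‖ ≤ 1 := by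
    rw [norm_inv, norm_pow, norm_mul, norm_pow]
    refine inv_le_one_of_one_le₀ (one_le_pow₀ ?_)
    have h6 : (1 : ℝ) ≤ ‖(b e : ℂ)‖ := by
      rw [Complex.norm_intCast]
      exact_mod_cast Int.one_le_abs hbe
    have h7 : (1 : ℝ) ≤ ‖(2 : ℂ)‖ ^ J := by
      refine one_le_pow₀ ?_
      norm_num
    nlinarith
  have h6 : ‖∑ μ ∈ s, ((p μ * GC b e m μ : ℤ) : ℂ) *
        ((derbX b e l μ + (μ e : ℂ) * LS l b) ^ k - derbX b e l μ ^ k) * EX l μ (x / 2 ^ J)‖ ≤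
      (BX L).card * (P * Zc ^ (∑ i, m i) * (k * (Zc * ‖LS l b‖) * Zc ^ (k - 1)) *
        Real.exp a3) := by
    refine (norm_sum_le _ _).trans ?_
    have h7 : ∀ μ ∈ s, ‖((p μ * GC b e m μ : ℤ) : ℂ) *
        ((derbX b e l μ + (μ e : ℂ) * LS l b) ^ k - derbX b e l μ ^ k) * EX l μ (x / 2 ^ J)‖ ≤
        P * Zc ^ (∑ i, m i) * (k * (Zc * ‖LS l b‖) * Zc ^ (k - 1)) * Real.exp a3 := by
      intro μ hμ
      obtain ⟨g1, g2, g3⟩ := hZ μ (hs hμ)
      rw [norm_mul, norm_mul]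
      refine mul_le_mul (mul_le_mul ?_ ?_ (norm_nonneg _) (by positivity)) (hE μ hμ)
        (norm_nonneg _) (by positivity)
      · rw [Complex.norm_intCast, Int.cast_mul, abs_mul]
        exact mul_le_mul (hp μ) (derb_GC_le b e m μ Zc g1) (abs_nonneg _) hP
      · refine (derb_pow_sub _ _ Zc g3 k).trans ?_
        refine mul_le_mul_of_nonneg_right ?_ (by positivity)
        refine mul_le_mul_of_nonneg_left ?_ (by positivity)
        rw [norm_mul]
        refine mul_le_mul_of_nonneg_right ?_ (norm_nonneg _)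
        rw [Complex.norm_intCast]
        exact g2
    refine (Finset.sum_le_card_nsmul _ _ _ h7).trans ?_
    rw [nsmul_eq_mul]
    refine mul_le_mul_of_nonneg_right ?_ (by positivity)
    exact_mod_cast Finset.card_le_card hs
  have h8 : (BX L).card * (P * Zc ^ (∑ i, m i) * (k * (Zc * ‖LS l b‖) * Zc ^ (k - 1)) *
        Real.exp a3) ≤ ‖LS l b‖ * ((BX L).card * P * Zc ^ (2 * τ + 1) * τ * Real.exp a3) := by
    have h9 : Zc ^ (∑ i, m i) * (Zc * Zc ^ (k - 1)) ≤ Zc ^ (2 * τ + 1) := by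
      rw [← pow_succ', ← pow_add]
      exact pow_le_pow_right₀ hZ1 (by omega)
    have h10 : (k : ℝ) ≤ τ := by exact_mod_cast hk.le
    have e1 : (BX L).card * (P * Zc ^ (∑ i, m i) * (k * (Zc * ‖LS l b‖) * Zc ^ (k - 1)) *
        Real.exp a3) = ‖LS l b‖ * ((BX L).card * P * (Zc ^ (∑ i, m i) * (Zc * Zc ^ (k - 1))) * k *
          Real.exp a3) := by ring
    rw [e1]
    refine mul_le_mul_of_nonneg_left ?_ (norm_nonneg _)
    refine mul_le_mul_of_nonneg_right ?_ (by positivity)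
    refine mul_le_mul ?_ h10 (by positivity) (by positivity)
    exact mul_le_mul_of_nonneg_left h9 (by positivity)
  calc ‖(((b e : ℂ) * 2 ^ J) ^ k)⁻¹‖ * ‖∑ μ ∈ s, ((p μ * GC b e m μ : ℤ) : ℂ) *
        ((derbX b e l μ + (μ e : ℂ) * LS l b) ^ k - derbX b e l μ ^ k) * EX l μ (x / 2 ^ J)‖
      ≤ 1 * ‖∑ μ ∈ s, ((p μ * GC b e m μ : ℤ) : ℂ) *
        ((derbX b e l μ + (μ e : ℂ) * LS l b) ^ k - derbX b e l μ ^ k) *
          EX l μ (x / 2 ^ J)‖ := mul_le_mul_of_nonneg_right h5 (norm_nonneg _)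
    _ ≤ _ := by
      rw [one_mul]
      exact h6.trans h8

end Pool.Agent.Helper60.HB
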