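import Pool.Agent.Helper60.HB.Skel

/-!
# Minkowski: integers of small norm near every point of the logarithmic space
-/

set_option autoImplicit false

open NumberField NumberField.InfinitePlace NumberField.mixedEmbedding MeasureTheory

open scoped ENNReal NNReal

namespace Pool.Agent.Helper60.HB

theorem mink_bound (K : Type) [Field K] [NumberField K] (h3 : Module.finrank ℚ K = 3) :
    minkowskiBound K ↑1 ≤ (NNReal.sqrt ‖discr K‖₊ * 8 : ℝ≥0) := by
  rw [minkowskiBound, volume_fundamentalDomain_fractionalIdealLatticeBasis,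
    Units.val_one, FractionalIdeal.absNorm_one, Rat.cast_one,
    ENNReal.ofReal_one, one_mul, mixedEmbedding.finrank, volume_fundamentalDomain_latticeBasis,
    h3, ENNReal.coe_mul]
  have h1 : (2 : ℝ≥0∞)⁻¹ ^ nrComplexPlaces K ≤ 1 := pow_le_one₀ (by positivity) (by simp)
  have h2 : ((8 : ℝ≥0) : ℝ≥0∞) = (2 : ℝ≥0∞) ^ 3 := by norm_num
  rw [h2]
  refine mul_le_mul' ?_ le_rfl
  calc (2 : ℝ≥0∞)⁻¹ ^ nrComplexPlaces K * (NNReal.sqrt ‖discr K‖₊ : ℝ≥0∞)
      ≤ 1 * (NNReal.sqrt ‖discr K‖₊ : ℝ≥0∞) := mul_le_mul' h1 le_rfl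
    _ = _ := one_mul _

theorem mink_exists (K : Type) [Field K] [NumberField K] (h3 : Module.finrank ℚ K = 3)
    (t : InfinitePlace K → ℝ) (ht : ∑ w, (w.mult : ℝ) * t w = 0) :
    ∃ a : 𝓞 K, a ≠ 0 ∧ ∀ w : InfinitePlace K,
      w (a : K) < Real.exp (t w) * (9 * Real.sqrt |(discr K : ℝ)|) ^ (1 / 3 : ℝ) := by
  have hD : 0 < |(discr K : ℝ)| := abs_pos.2 (by exact_mod_cast discr_ne_zero K)
  set B : ℝ := 9 * Real.sqrt |(discr K : ℝ)| with hB
  have hB0 : 0 < B := by positivity
  let f : InfinitePlace K → ℝ≥0 := fun w => Real.toNNReal (Real.exp (t w) * B ^ (1 / 3 : ℝ))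
  have hfc : ∀ w, ((f w : ℝ≥0) : ℝ) = Real.exp (t w) * B ^ (1 / 3 : ℝ) := fun w =>
    Real.coe_toNNReal _ (by positivity)
  have hf : ∏ w, (f w) ^ mult w = Real.toNNReal B := by
    rw [← NNReal.coe_inj, Real.coe_toNNReal _ hB0.le]
    push_cast
    simp only [hfc]
    have h4 : ∀ w : InfinitePlace K, (Real.exp (t w) * B ^ (1 / 3 : ℝ)) ^ mult w =
        Real.exp ((w.mult : ℝ) * t w) * (B ^ (1 / 3 : ℝ)) ^ mult w := by
      intro w
      rw [mul_pow, ← Real.exp_nat_mul]
    simp only [h4]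
    rw [Finset.prod_mul_distrib, ← Real.exp_sum, ht, Real.exp_zero, one_mul,
      Finset.prod_pow_eq_pow_sum, sum_mult_eq, h3, ← Real.rpow_natCast, ← Real.rpow_mul hB0.le]
    norm_num
  classical
  have hvol : minkowskiBound K ↑1 < volume (convexBodyLT K f) := by
    rw [convexBodyLT_volume]
    refine lt_of_le_of_lt (mink_bound K h3) ?_
    have h6 : (NNReal.sqrt ‖discr K‖₊ * 8 : ℝ≥0) < Real.toNNReal B := by
      rw [← NNReal.coe_lt_coe, Real.coe_toNNReal _ hB0.le]
      push_cast
      rw [Int.norm_eq_abs]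
      have h7 : 0 < Real.sqrt |(discr K : ℝ)| := Real.sqrt_pos.2 hD
      linarith
    have h8 : Real.toNNReal B ≤ convexBodyLTFactor K * Real.toNNReal B := by
      calc Real.toNNReal B = 1 * Real.toNNReal B := (one_mul _).symm
        _ ≤ _ := mul_le_mul' (one_le_convexBodyLTFactor K) le_rfl
    rw [← hf] at h6 h8
    exact_mod_cast lt_of_lt_of_le h6 h8
  obtain ⟨a, ha, ha'⟩ := exists_ne_zero_mem_ringOfIntegers_lt K hvol
  refine ⟨a, ha, fun w => ?_⟩
  rw [← hfc w]
  exact ha' w

theorem st_MINK : ST_MINK := by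
  refine ⟨9, by norm_num, fun K _ _ h3 => ?_⟩
  have hD : 1 ≤ |(discr K : ℝ)| := by
    have h := Int.one_le_abs (discr_ne_zero K)
    exact_mod_cast h
  set B : ℝ := 9 * Real.sqrt |(discr K : ℝ)| with hB
  have hs : 1 ≤ Real.sqrt |(discr K : ℝ)| := by
    rw [Real.one_le_sqrt]
    exact hD
  have hB9 : 9 ≤ B := by linarith
  have hB0 : 0 < B := by linarith
  have hlog : 1 ≤ Real.log B := by
    rw [Real.le_log_iff_exp_le hB0]
    have := Real.exp_one_lt_d9
    linarith
  refine ⟨hlog, fun t ht => ?_⟩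
  obtain ⟨a, ha, hlt⟩ := mink_exists K h3 t ht
  rw [← hB] at hlt
  have haK : (a : K) ≠ 0 := RingOfIntegers.coe_ne_zero_iff.2 ha
  have hup : ∀ w : InfinitePlace K, Real.log (w (a : K)) ≤ t w + 1 / 3 * Real.log B := by
    intro w
    have h4 : 0 < w (a : K) := InfinitePlace.pos_iff.2 haK
    have h5 := Real.log_le_log h4 (hlt w).le
    rw [Real.log_mul (Real.exp_pos _).ne' (Real.rpow_pos_of_pos hB0 _).ne', Real.log_exp,
      Real.log_rpow hB0] at h5
    exact h5
  have hnorm : (∏ w : InfinitePlace K, w (a : K) ^ mult w) =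
      (((Algebra.norm ℤ a).natAbs : ℕ) : ℝ) := by
    rw [prod_eq_abs_norm, ← Algebra.coe_norm_int, Nat.cast_natAbs]
    push_cast
    rfl
  have hn0 : (1 : ℝ) ≤ (((Algebra.norm ℤ a).natAbs : ℕ) : ℝ) := by
    have h6 : Algebra.norm ℤ a ≠ 0 := Algebra.norm_ne_zero_iff.2 ha
    have h7 : 1 ≤ (Algebra.norm ℤ a).natAbs := Nat.one_le_iff_ne_zero.2 (Int.natAbs_ne_zero.2 h6)
    exact_mod_cast h7
  have hsum : ∑ w : InfinitePlace K, (w.mult : ℝ) * Real.log (w (a : K)) =
      Real.log (((Algebra.norm ℤ a).natAbs : ℕ) : ℝ) := by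
    rw [← hnorm, Real.log_prod]
    · refine Finset.sum_congr rfl fun w _ => ?_
      rw [Real.log_pow]
    · intro w _
      exact pow_ne_zero _ (InfinitePlace.pos_iff.2 haK).ne'
  have hmult : ∑ w : InfinitePlace K, (w.mult : ℝ) = 3 := by
    rw [← Nat.cast_sum, sum_mult_eq, h3]
    norm_num
  have hsum0 : 0 ≤ ∑ w : InfinitePlace K, (w.mult : ℝ) * Real.log (w (a : K)) := by
    rw [hsum]
    exact Real.log_nonneg hn0
  refine ⟨a, ha, ?_, ?_⟩
  · rw [Real.exp_log hB0, ← Real.log_le_log_iff (by linarith) hB0, ← hsum]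
    calc ∑ w : InfinitePlace K, (w.mult : ℝ) * Real.log (w (a : K))
        ≤ ∑ w : InfinitePlace K, (w.mult : ℝ) * (t w + 1 / 3 * Real.log B) :=
          Finset.sum_le_sum fun w _ => mul_le_mul_of_nonneg_left (hup w) (Nat.cast_nonneg _)
      _ = ∑ w : InfinitePlace K, (w.mult : ℝ) * t w +
            (∑ w : InfinitePlace K, (w.mult : ℝ)) * (1 / 3 * Real.log B) := by
          rw [Finset.sum_mul, ← Finset.sum_add_distrib]
          refine Finset.sum_congr rfl fun w _ => ?_
          ring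
      _ = Real.log B := by
          rw [ht, hmult]
          ring
  · intro w
    rw [abs_le]
    constructor
    · have h8 : (w.mult : ℝ) * (t w + 1 / 3 * Real.log B - Real.log (w (a : K))) ≤
          ∑ v : InfinitePlace K, (v.mult : ℝ) * (t v + 1 / 3 * Real.log B -
            Real.log (v (a : K))) := by
        refine Finset.single_le_sum (f := fun v : InfinitePlace K => (v.mult : ℝ) *
          (t v + 1 / 3 * Real.log B - Real.log (v (a : K)))) ?_ (Finset.mem_univ w)
        intro v _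
        exact mul_nonneg (Nat.cast_nonneg _) (by linarith [hup v])
      have h9 : ∑ v : InfinitePlace K, (v.mult : ℝ) * (t v + 1 / 3 * Real.log B -
            Real.log (v (a : K))) = Real.log B -
              ∑ v : InfinitePlace K, (v.mult : ℝ) * Real.log (v (a : K)) := by
        have h10 : ∀ v : InfinitePlace K, (v.mult : ℝ) * (t v + 1 / 3 * Real.log B -
            Real.log (v (a : K))) = (v.mult : ℝ) * t v + (v.mult : ℝ) * (1 / 3 * Real.log B) -
              (v.mult : ℝ) * Real.log (v (a : K)) := fun v => by ring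
        simp only [h10]
        rw [Finset.sum_sub_distrib, Finset.sum_add_distrib, ht, ← Finset.sum_mul, hmult]
        ring
      have h11 : (1 : ℝ) ≤ (w.mult : ℝ) := by
        have := w.mult_pos
        exact_mod_cast this
      have h12 : t w + 1 / 3 * Real.log B - Real.log (w (a : K)) ≤
          (w.mult : ℝ) * (t w + 1 / 3 * Real.log B - Real.log (w (a : K))) := by
        have h13 : 0 ≤ t w + 1 / 3 * Real.log B - Real.log (w (a : K)) := by linarith [hup w]
        nlinarith
      linarith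
    · have := hup w
      linarith

end Pool.Agent.Helper60.HB
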