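import Pool.Agent.Helper60.HB.Skel

/-!
# Roots of unity in number fields of bounded degree
-/

set_option autoImplicit false

open NumberField NumberField.Units

namespace Pool.Agent.Helper60.HB

theorem torb_totient (d w : ℕ) (hw : w ≠ 0) (h : Nat.totient w ≤ d) : w ≤ (2 * d) ^ (d + 2) := by
  have hpos : 0 < Nat.totient w := Nat.totient_pos.2 (Nat.pos_of_ne_zero hw)
  have hd : 1 ≤ d := by omega
  have key : ∀ p ∈ w.primeFactors, p ^ w.factorization p ≤ 2 * d ∧ p < d + 2 := by
    intro p hp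
    have hpp : p.Prime := Nat.prime_of_mem_primeFactors hp
    have ha : 0 < w.factorization p := hpp.factorization_pos_of_dvd hw (Nat.dvd_of_mem_primeFactors hp)
    have h1 : Nat.totient (p ^ w.factorization p) ≤ d :=
      (Nat.le_of_dvd hpos (Nat.totient_dvd_of_dvd (Nat.ordProj_dvd w p))).trans h
    rw [Nat.totient_prime_pow hpp ha] at h1
    obtain ⟨a, ha'⟩ : ∃ a, w.factorization p = a + 1 := ⟨w.factorization p - 1, by omega⟩
    rw [ha', Nat.add_sub_cancel] at h1
    have h2 := hpp.two_le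
    have h3 : 1 ≤ p ^ a := Nat.one_le_pow _ _ hpp.pos
    obtain ⟨q, rfl⟩ : ∃ q, p = q + 1 := ⟨p - 1, by omega⟩
    rw [Nat.add_sub_cancel] at h1
    constructor
    · rw [ha', pow_succ]
      nlinarith
    · nlinarith
  have hsub : w.primeFactors ⊆ Finset.range (d + 2) := fun p hp => Finset.mem_range.2 (key p hp).2
  calc w = ∏ p ∈ w.primeFactors, p ^ w.factorization p :=
        (Nat.prod_factorization_pow_eq_self hw).symm
    _ ≤ ∏ p ∈ w.primeFactors, (2 * d) := Finset.prod_le_prod' fun p hp => (key p hp).1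
    _ = (2 * d) ^ w.primeFactors.card := by rw [Finset.prod_const]
    _ ≤ (2 * d) ^ (d + 2) := by
        refine Nat.pow_le_pow_right (by omega) ?_
        have := Finset.card_le_card hsub
        simpa using this

theorem torb_prim (K : Type) [Field K] [NumberField K] :
    ∃ ζ : K, IsPrimitiveRoot ζ (torsionOrder K) := by
  obtain ⟨g, hg⟩ := IsCyclic.exists_generator (α := torsion K)
  have h1 : orderOf g = torsionOrder K := orderOf_eq_card_of_forall_mem_zpowers hg
  have h2 : IsPrimitiveRoot g (torsionOrder K) := h1 ▸ IsPrimitiveRoot.orderOf g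
  have h3 : IsPrimitiveRoot ((g : (𝓞 K)ˣ)) (torsionOrder K) :=
    h2.map_of_injective (f := (torsion K).subtype) Subtype.val_injective
  have h4 : IsPrimitiveRoot (((g : (𝓞 K)ˣ) : 𝓞 K)) (torsionOrder K) :=
    IsPrimitiveRoot.coe_units_iff.2 h3
  exact ⟨_, h4.map_of_injective (f := algebraMap (𝓞 K) K) (FaithfulSMul.algebraMap_injective _ _)⟩

theorem st_TORB : ST_TORB := by
  intro d
  refine ⟨(2 * d) ^ (d + 2), fun K _ _ hd σ => ⟨torsionOrder K, torsionOrder_pos K, ?_, ?_, ?_⟩⟩
  · obtain ⟨ζ, hζ⟩ := torb_prim K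
    refine torb_totient d _ (torsionOrder_ne_zero K) ?_
    have h1 : minpoly ℚ ζ = Polynomial.cyclotomic (torsionOrder K) ℚ :=
      (Polynomial.cyclotomic_eq_minpoly_rat hζ (torsionOrder_pos K)).symm
    have h2 := minpoly.natDegree_le (A := ℚ) ζ
    rw [h1, Polynomial.natDegree_cyclotomic, hd] at h2
    exact h2
  · obtain ⟨ζ, hζ⟩ := torb_prim K
    have h1 : IsPrimitiveRoot (σ ζ) (torsionOrder K) := hζ.map_of_injective σ.injective
    have h2 : Complex.exp (2 * Real.pi * Complex.I / (torsionOrder K)) ^ (torsionOrder K) = 1 :=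
      (Complex.isPrimitiveRoot_exp _ (torsionOrder_ne_zero K)).pow_eq_one
    obtain ⟨i, -, hi⟩ := h1.eq_pow_of_pow_eq_one h2
    exact ⟨ζ ^ i, by rw [map_pow]; exact hi⟩
  · rintro x ⟨m, hm, hx⟩
    have h1 : 0 < orderOf x := orderOf_pos_iff.2 (isOfFinOrder_iff_pow_eq_one.2 ⟨m, hm, hx⟩)
    have : NeZero (orderOf x) := ⟨h1.ne'⟩
    have h2 := dvd_torsionOrder_of_isPrimitiveRoot (IsPrimitiveRoot.orderOf x)
    exact orderOf_dvd_iff_pow_eq_one.1 h2

end Pool.Agent.Helper60.HB
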